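import Pool.Agent.Q36.EF.Tq

/-!
# Nef line bundles on torus quotients with `H^1(X, O_X) = 0` and the fibrations they define

`X = V / Γ` is the quotient of a complex torus of dimension `d` by a finite group. `latt`,
`IsTorusQuotient`, `LineBundle` and `LineBundle.pow` are defined in `Pool.Agent.W594.SYZ.Defs2`;
`IsHermitian`, `IsChernForm`, `IsNefForm` and `IsPositiveForm` in `Pool.Agent.W594.SYZ.TQDefs`;
`IsPseudoEffective` in `Pool.Agent.TH128.SYZ.PsefDefs`; `HOneZero` and `IsFibration` in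
`Pool.Agent.TH735.AQ.Defs`; `N`, `BasePointFree`, `SameImage`, `IsIso` and `Defines` in
`Pool.Agent.Q36.EF.Defs`.
-/

set_option autoImplicit false

universe u

namespace Pool.Agent.Results.MP_cda8c3_ag.EffectiveFibration

open Pool.Agent.W594.SYZ2 Pool.Agent.TH735.AQ Pool.Agent.TH128.SYZ Q36.EF

/-- The linear map `π` gives a fibration `g : X = V / Γ → B = ℂ ^ n / Δ` onto a torus quotient such
that a positive multiple `m H` is the pullback of a positive definite hermitian form of `ℂ ^ n`. -/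
structure IsFibrationOf {V : Type*} [NormedAddCommGroup V] [NormedSpace ℂ V]
    (Γ : Subgroup (V ≃ᵃ[ℂ] V)) (H : V → V → ℂ) {n : ℕ}
    (Δ : Subgroup ((Fin n → ℂ) ≃ᵃ[ℂ] (Fin n → ℂ))) (π : V →ₗ[ℂ] (Fin n → ℂ)) : Prop where
  fibration : IsFibration Γ Δ π
  pullback : ∃ (m : ℕ) (B : (Fin n → ℂ) → (Fin n → ℂ) → ℂ), 1 ≤ m ∧ IsHermitian B ∧
    IsPositiveForm B ∧ ∀ v w, B (π v) (π w) = (m : ℂ) * H v w

/-- Let `X` be a torus quotient of dimension `d` with `H^1(X, O_X) = 0`, and `L` a line bundle on `X`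
with Chern form `H`.

(1) Equivalent: `L` is pseudo-effective; `L` is nef; some power `L ^ m`, `m ≥ 1`, has a nonzero
section; `L ^ N(d)` is base point free; the linear system `|L ^ N(d)|` is base point free and defines a
fibration `g : X → B` onto a torus quotient (`L ^ N(d)` is the pullback of an ample line bundle on
`B`, which is base point free and separates the points of `B`).

(2) All fibrations `g` of `X` onto torus quotients such that a multiple `m H`, `m ≥ 1`, is the pullback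
of a positive definite form are isomorphic. -/
theorem result {V : Type u} [NormedAddCommGroup V] [NormedSpace ℂ V] [FiniteDimensional ℂ V]
    (Γ : Subgroup (V ≃ᵃ[ℂ] V)) (hΓ : IsTorusQuotient Γ) (h01 : HOneZero Γ) (L : LineBundle Γ)
    (H : V → V → ℂ) (hc : IsChernForm L H) :
    List.TFAE [IsPseudoEffective L, IsNefForm H,
      ∃ m : ℕ, 1 ≤ m ∧ ∃ s, (L.pow m).IsSection s ∧ s ≠ 0,
      BasePointFree (L.pow (N (Module.finrank ℂ V))),
      ∃ (n : ℕ) (Δ : Subgroup ((Fin n → ℂ) ≃ᵃ[ℂ] (Fin n → ℂ))) (π : V →ₗ[ℂ] (Fin n → ℂ)),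
        IsFibration Γ Δ π ∧ Defines (L.pow (N (Module.finrank ℂ V)))
          (fun v w => (N (Module.finrank ℂ V) : ℂ) * H v w) Δ π] ∧
    ∀ (n : ℕ) (Δ : Subgroup ((Fin n → ℂ) ≃ᵃ[ℂ] (Fin n → ℂ))) (π : V →ₗ[ℂ] (Fin n → ℂ))
      (n' : ℕ) (Δ' : Subgroup ((Fin n' → ℂ) ≃ᵃ[ℂ] (Fin n' → ℂ)))
      (π' : V →ₗ[ℂ] (Fin n' → ℂ)), IsFibrationOf Γ H Δ π → IsFibrationOf Γ H Δ' π' →
      ∃ φ : (Fin n → ℂ) ≃ₗ[ℂ] (Fin n' → ℂ), (∀ v, π' v = φ (π v)) ∧
        ∀ δ' : (Fin n' → ℂ) ≃ᵃ[ℂ] (Fin n' → ℂ),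
          δ' ∈ Δ' ↔ ∃ δ ∈ Δ, ∀ w, δ' (φ w) = φ (δ w) := by
  refine ⟨hone_tfae hΓ h01 hc, ?_⟩
  rintro n Δ π n' Δ' π' ⟨hf, m, B, hm, hB, hp, h⟩ ⟨hf', m', B', hm', hB', hp', h'⟩
  exact fib_unique hf hm hB hp h hf' hm' hB' hp' h'

end Pool.Agent.Results.MP_cda8c3_ag.EffectiveFibration
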