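import Pool.Agent.Q42.EB.Main

set_option autoImplicit false

/-!
# Nef line bundles on quotients of complex tori: effective semiampleness

Let `X = V / Γ = A / G` be the quotient of a complex torus `A = V / Λ` of any dimension (projective or
not) by any finite group `G` of affine automorphisms. `X` is klt, and `K_X` is torsion if `G` contains
no reflections. If `H^1(X, O_X) = 0` then for every nef line bundle `L` on `X` the line bundle
`L ^ (4 |G| ^ 5)` is base point free. The exponent depends only on the order of `G`.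

`latt`, `IsTorusQuotient`, `LineBundle`, `LineBundle.pow` and `LineBundle.IsSection` are defined in
`Pool.Agent.W594.SYZ.Defs2`; `IsChernForm` and `IsNefForm` in `Pool.Agent.W594.SYZ.TQDefs`;
`HOneZero` and `IsFlat` in `Pool.Agent.TH735.AQ.Defs`; `order` (the order of `G`) and
`BasePointFree` (for every point some global section does not vanish there) in
`Pool.Agent.Q42.EB.Main`.
-/

namespace Pool.Agent.Results.MP_cda8c3_ag.EffectiveTorusQuotients

open Pool.Agent.W594.SYZ2 Pool.Agent.TH735.AQ Pool.Agent.Q42.EB

/-- Let `X = V / Γ = A / G` be a torus quotient.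

(1) Suppose `H^1(X, O_X) = 0`. For a line bundle `L` on `X` with Chern form `H` the following are
equivalent: `L` is nef; some positive power of `L` has a nonzero section; the line bundle
`L ^ (4 |G| ^ 5)` is base point free.

(2) If `H^1(X, O_X) ≠ 0` then some flat (so nef and numerically trivial) line bundle on `X` has no
positive power with a nonzero section, and so it is not semiample. -/
theorem result {V : Type*} [NormedAddCommGroup V] [NormedSpace ℂ V] [FiniteDimensional ℂ V]
    (Γ : Subgroup (V ≃ᵃ[ℂ] V)) (hΓ : IsTorusQuotient Γ) :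
    (HOneZero Γ → ∀ (L : LineBundle Γ) (H : V → V → ℂ), IsChernForm L H →
      List.TFAE [IsNefForm H,
        ∃ m : ℕ, 1 ≤ m ∧ ∃ s, (L.pow m).IsSection s ∧ s ≠ 0,
        BasePointFree (L.pow (4 * order Γ ^ 5))]) ∧
    (¬ HOneZero Γ → ∃ P : LineBundle Γ, IsFlat P ∧
      ∀ m : ℕ, 1 ≤ m → ∀ s, (P.pow m).IsSection s → s = 0) := by
  refine ⟨fun h01 L H hc => ?_, exists_bad hΓ⟩
  have hpos : 1 ≤ 4 * order Γ ^ 5 := Nat.mul_pos (by norm_num) (pow_pos (order_pos hΓ) 5)
  tfae_have 1 → 3 := effective hΓ h01 hc
  tfae_have 3 → 2 := by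
    intro h
    obtain ⟨s, hs, h0⟩ := h 0
    exact ⟨_, hpos, s, hs, fun h1 => h0 (by rw [h1]; rfl)⟩
  tfae_have 2 → 1 := by
    rintro ⟨m, hm, s, hs, h0⟩
    exact nef_of_pow hΓ hc hm hs h0
  tfae_finish

end Pool.Agent.Results.MP_cda8c3_ag.EffectiveTorusQuotients
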