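import Pool.Agent.Q42.EB.Main

set_option autoImplicit false

/-!
# Nef line bundles on quotients of complex tori: numerical semiampleness with exponent `4 |G| ^ 3`

Let `X = V / Γ = A / G` be the quotient of a complex torus `A = V / Λ` of any dimension (projective or
not) by any finite group `G` of affine automorphisms, and let `L` be a nef line bundle on `X`, with
Chern form `H`. Then some base point free line bundle on `X` has the Chern form `4 |G| ^ 3 H`: there is no
condition on `H^1(X, O_X)`.

`latt`, `IsTorusQuotient`, `LineBundle` and `LineBundle.IsSection` are defined in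
`Pool.Agent.W594.SYZ.Defs2`; `IsChernForm` and `IsNefForm` in `Pool.Agent.W594.SYZ.TQDefs`; `order`
(the order of `G`) and `BasePointFree` (for every point some global section does not vanish there) in
`Pool.Agent.Q42.EB.Main`.
-/

namespace Pool.Agent.Results.MP_cda8c3_ag.NumericalExponent

open Pool.Agent.W594.SYZ2 Pool.Agent.TH735.AQ Pool.Agent.Q42.EB

/-- For every nef line bundle `L` with Chern form `H` on a torus quotient some base point free line
bundle has the Chern form `4 |G| ^ 3 H`. -/
theorem result {V : Type*} [NormedAddCommGroup V] [NormedSpace ℂ V] [FiniteDimensional ℂ V]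
    (Γ : Subgroup (V ≃ᵃ[ℂ] V)) (hΓ : IsTorusQuotient Γ) :
    ∀ (L : LineBundle Γ) (H : V → V → ℂ), IsChernForm L H → IsNefForm H →
      ∃ M : LineBundle Γ, IsChernForm M (fun v w => ((4 * order Γ ^ 3 : ℕ) : ℂ) * H v w) ∧
        BasePointFree M :=
  fun _ _ hc hn => numerical_bpf hΓ hc hn

end Pool.Agent.Results.MP_cda8c3_ag.NumericalExponent
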